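import Mathlib

set_option autoImplicit false

namespace Pool.Agent.Results.MP_797bdc_co.DimTwoConnected

open Finset

/-- The rational simplicial boundary of the face `σ`, as a function on faces: the face
`σ \ {v}` gets the coefficient `(-1)^i` where `i` is the position of `v` in `σ`. -/
def bdry {n : ℕ} (σ : Finset (Fin n)) : Finset (Fin n) → ℚ :=
  fun ρ => ∑ v ∈ σ, if ρ = σ.erase v then (-1 : ℚ) ^ (σ.filter (fun w => w < v)).card else 0

/-- `T` is (the set of `d`-faces of) a `d`-hypertree on `n` vertices. -/
def IsHypertree (n d : ℕ) (T : Finset (Finset (Fin n))) : Prop :=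
  (∀ σ ∈ T, σ.card = d + 1) ∧ T.card = (n - 1).choose d ∧
    LinearIndependent ℚ (fun σ : {σ // σ ∈ T} => bdry σ.1)

/-- `d`-collapsibility: one can delete all `d`-faces one after the other, where a `d`-face may be
deleted if it contains a `(d-1)`-face lying in no other `d`-face of the current set. -/
inductive Collapsible {n : ℕ} (d : ℕ) : Finset (Finset (Fin n)) → Prop
  | empty : Collapsible d ∅
  | step (T : Finset (Finset (Fin n))) (f τ : Finset (Fin n)) (hf : f.card = d) (hτ : τ ∈ T)
      (hfτ : f ⊆ τ) (hfree : ∀ τ' ∈ T, f ⊆ τ' → τ' = τ) (h : Collapsible d (T.erase τ)) :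
      Collapsible d T

/-- The states of the restricted chain. -/
def IsState (n d : ℕ) (T : Finset (Finset (Fin n))) : Prop :=
  IsHypertree n d T ∧ Collapsible d T

/-- An exchange `T → T \ {τ} ∪ {σ}` between two `d`-collapsible `d`-hypertrees. -/
def ExchangeStep (n d : ℕ) (T T' : Finset (Finset (Fin n))) : Prop :=
  IsState n d T ∧ IsState n d T' ∧
    ∃ σ τ : Finset (Fin n), σ.card = d + 1 ∧ σ ∉ T ∧ τ ∈ T ∧ T' = insert σ (T.erase τ)

/-! ### Collapsible sets are independent -/

theorem bdry_zero {n : ℕ} {f τ : Finset (Fin n)} (h : ¬ f ⊆ τ) : bdry τ f = 0 := by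
  unfold bdry
  apply Finset.sum_eq_zero
  intro v _
  rw [if_neg]
  rintro rfl
  exact h (erase_subset _ _)

theorem bdry_ne {n d : ℕ} {f τ : Finset (Fin n)} (h : f ⊆ τ) (hf : f.card = d)
    (hτ : τ.card = d + 1) : bdry τ f ≠ 0 := by
  obtain ⟨v, hv, hvf⟩ : ∃ v ∈ τ, v ∉ f := by
    by_contra hcon
    push Not at hcon
    have := card_le_card (fun x hx => hcon x hx : τ ⊆ f)
    omega
  have hfe : f = τ.erase v := by
    apply eq_of_subset_of_card_le
    · intro x hx
      exact mem_erase.2 ⟨fun hxv => hvf (hxv ▸ hx), h hx⟩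
    · rw [card_erase_of_mem hv]; omega
  unfold bdry
  rw [Finset.sum_eq_single v]
  · rw [if_pos hfe]
    exact pow_ne_zero _ (by norm_num)
  · intro w _ hwv
    rw [if_neg]
    intro hfw
    apply hvf
    rw [hfw]
    exact mem_erase.2 ⟨hwv.symm, hv⟩
  · intro h'
    exact absurd hv h'

theorem indep_of_collapsible {n d : ℕ} {T : Finset (Finset (Fin n))} (h : Collapsible d T)
    (hT : ∀ σ ∈ T, σ.card = d + 1) : LinearIndepOn ℚ (bdry (n := n)) (T : Set (Finset (Fin n))) := by
  induction h with
  | empty => rw [coe_empty]; exact linearIndepOn_empty ℚ _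
  | step T f τ hf hτ hfτ hfree _ ih =>
    have ih' := ih (fun σ hσ => hT σ (mem_of_mem_erase hσ))
    rw [← insert_erase hτ, coe_insert]
    apply LinearIndepOn.insert ih'
    intro hmem
    have hle : Submodule.span ℚ (bdry (n := n) '' ((T.erase τ : Finset _) : Set (Finset (Fin n))))
        ≤ LinearMap.ker (LinearMap.proj (R := ℚ) (φ := fun _ : Finset (Fin n) => ℚ) f) := by
      rw [Submodule.span_le]
      rintro _ ⟨τ', hτ', rfl⟩
      rw [SetLike.mem_coe, LinearMap.mem_ker, LinearMap.proj_apply]
      apply bdry_zero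
      intro hft
      rw [mem_coe, mem_erase] at hτ'
      exact hτ'.1 (hfree τ' hτ'.2 hft)
    have h1 := hle hmem
    rw [LinearMap.mem_ker, LinearMap.proj_apply] at h1
    exact bdry_ne hfτ hf (hT τ hτ) h1

/-! ### Building sequences -/

/-- Starting from the set `R` of `(d-1)`-faces, the `(d-1)`-faces in `X` are added one by one, each
new face together with a `d`-face of `T` all of whose other `(d-1)`-faces are already present. -/
inductive Build {n : ℕ} (d : ℕ) (R : Finset (Finset (Fin n))) :
    Finset (Finset (Fin n)) → Finset (Finset (Fin n)) → Prop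
  | base : Build d R ∅ R
  | add (T X : Finset (Finset (Fin n))) (f τ : Finset (Fin n)) (h : Build d R T X) (hf : f ∉ X)
      (hτ : τ.card = d + 1) (hfτ : f ⊆ τ) (hfc : f.card = d)
      (hother : ∀ g ⊆ τ, g.card = d → g ≠ f → g ∈ X) : Build d R (insert τ T) (insert f X)

variable {n d : ℕ} {R T X : Finset (Finset (Fin n))}

theorem Build.mem (h : Build d R T X) :
    ∀ τ ∈ T, τ.card = d + 1 ∧ ∀ g ⊆ τ, g.card = d → g ∈ X := by
  induction h with
  | base => simp
  | add T X f τ h hf hτ hfτ hfc hother ih =>
    intro τ' hτ'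
    rcases mem_insert.1 hτ' with rfl | hτ'
    · refine ⟨hτ, fun g hg hgc => ?_⟩
      by_cases hgf : g = f
      · rw [hgf]; exact mem_insert_self _ _
      · exact mem_insert_of_mem (hother g hg hgc hgf)
    · exact ⟨(ih τ' hτ').1, fun g hg hgc => mem_insert_of_mem ((ih τ' hτ').2 g hg hgc)⟩

theorem Build.notMem (h : Build d R T X) {f τ : Finset (Fin n)} (hf : f ∉ X) (hfτ : f ⊆ τ)
    (hfc : f.card = d) : τ ∉ T := fun hτ => hf ((h.mem τ hτ).2 f hfτ hfc)

theorem Build.card (h : Build d R T X) : X.card = R.card + T.card := by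
  induction h with
  | base => simp
  | add T X f τ h hf hτ hfτ hfc hother ih =>
    rw [card_insert_of_notMem hf, card_insert_of_notMem (h.notMem hf hfτ hfc), ih]
    omega

theorem Build.insert_start (h : Build d R T X) {f : Finset (Fin n)} (hf : f ∉ X) :
    Build d (insert f R) T (insert f X) := by
  induction h with
  | base => exact Build.base
  | add T X g τ h hg hτ hgτ hgc hother ih =>
    rw [mem_insert, not_or] at hf
    rw [Finset.insert_comm]
    refine Build.add _ _ g τ (ih hf.2) ?_ hτ hgτ hgc ?_
    · rw [mem_insert, not_or]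
      exact ⟨fun h => hf.1 h.symm, hg⟩
    · intro k hk hkc hkg
      exact mem_insert_of_mem (hother k hk hkc hkg)

/-- Extraction of the `d`-face used for `f`. -/
theorem Build.extract (h : Build d R T X) {f : Finset (Fin n)} (hfX : f ∈ X) (hfR : f ∉ R) :
    ∃ τ ∈ T, f ⊆ τ ∧ Build d (insert f R) (T.erase τ) X := by
  induction h with
  | base => exact absurd hfX hfR
  | add T X g τ h hg hτ hgτ hgc hother ih =>
    have hτT : τ ∉ T := h.notMem hg hgτ hgc
    by_cases hfg : f = g
    · subst hfg
      refine ⟨τ, mem_insert_self _ _, hgτ, ?_⟩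
      rw [erase_insert hτT]
      exact h.insert_start hg
    · have hfX' : f ∈ X := (mem_insert.1 hfX).resolve_left hfg
      obtain ⟨τ', hτ', hfτ', hb⟩ := ih hfX'
      refine ⟨τ', mem_insert_of_mem hτ', hfτ', ?_⟩
      have hne : τ ≠ τ' := fun h' => hτT (h' ▸ hτ')
      rw [erase_insert_of_ne hne]
      exact Build.add _ _ g τ hb hg hτ hgτ hgc hother

/-- A first step can be put in front. -/
theorem Build.prepend {f : Finset (Fin n)} (h : Build d (insert f R) T X) (hf : f ∉ R)
    {σ : Finset (Fin n)} (hσ : σ.card = d + 1) (hfσ : f ⊆ σ) (hfc : f.card = d)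
    (hother : ∀ g ⊆ σ, g.card = d → g ≠ f → g ∈ R) : Build d R (insert σ T) X := by
  generalize hS : insert f R = S at h
  induction h with
  | base =>
    rw [← hS]
    exact Build.add _ _ f σ Build.base hf hσ hfσ hfc hother
  | add T X g τ h hg hτ hgτ hgc hother' ih =>
    rw [Finset.insert_comm]
    exact Build.add _ _ g τ ih hg hτ hgτ hgc hother'

theorem Build.exists_new (h : Build d R T X) :
    R ⊆ X ∧ ∀ σ ∈ T, ∃ g ⊆ σ, g.card = d ∧ g ∉ R := by
  induction h with
  | base => exact ⟨Subset.refl _, by simp⟩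
  | add T X f τ h hf hτ hfτ hfc hother ih =>
    refine ⟨ih.1.trans (subset_insert _ _), ?_⟩
    intro σ hσ
    rcases mem_insert.1 hσ with rfl | hσ
    · exact ⟨f, hfτ, hfc, fun h' => hf (ih.1 h')⟩
    · exact ih.2 σ hσ

theorem Build.collapsible (h : Build d R T X) : Collapsible d T := by
  induction h with
  | base => exact Collapsible.empty
  | add T X f τ h hf hτ hfτ hfc hother ih =>
    have hτT : τ ∉ T := h.notMem hf hfτ hfc
    refine Collapsible.step _ f τ hfc (mem_insert_self _ _) hfτ ?_ ?_
    · intro τ' hτ' hfτ'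
      rcases mem_insert.1 hτ' with h' | h'
      · exact h'
      · exact absurd h' (h.notMem hf hfτ' hfc)
    · rw [erase_insert hτT]
      exact ih

theorem Build.erase_start (h : Build d R T X) {f : Finset (Fin n)} 
    (hno : ∀ τ ∈ T, ¬ f ⊆ τ) : Build d (R.erase f) T (X.erase f) := by
  induction h with
  | base => exact Build.base
  | add T X g τ h hg hτ hgτ hgc hother ih =>
    have hfτ : ¬ f ⊆ τ := hno τ (mem_insert_self _ _)
    have hgf : g ≠ f := fun h' => hfτ (h' ▸ hgτ)
    have hb := ih (fun τ' hτ' => hno τ' (mem_insert_of_mem hτ'))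
    rw [erase_insert_of_ne hgf]
    refine Build.add _ _ g τ hb (fun h' => hg (mem_of_mem_erase h')) hτ hgτ hgc ?_
    intro k hk hkc hkg
    exact mem_erase.2 ⟨fun h' => hfτ (h' ▸ hk), hother k hk hkc hkg⟩

/-- All `(d-1)`-faces. -/
def allF (n d : ℕ) : Finset (Finset (Fin n)) := (univ : Finset (Fin n)).powersetCard d

theorem mem_allF {f : Finset (Fin n)} : f ∈ allF n d ↔ f.card = d := by
  simp [allF, mem_powersetCard]

theorem exists_build (h : Collapsible d T) (hT : ∀ σ ∈ T, σ.card = d + 1) :
    ∃ R, Build d R T (allF n d) := by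
  induction h with
  | empty => exact ⟨_, Build.base⟩
  | step T f τ hf hτ hfτ hfree _ ih =>
    obtain ⟨R', hR'⟩ := ih (fun σ hσ => hT σ (mem_of_mem_erase hσ))
    have hno : ∀ τ' ∈ T.erase τ, ¬ f ⊆ τ' := by
      intro τ' hτ' hft
      rw [mem_erase] at hτ'
      exact hτ'.1 (hfree τ' hτ'.2 hft)
    have hb := hR'.erase_start hno
    refine ⟨R'.erase f, ?_⟩
    have hb2 := Build.add _ _ f τ hb (notMem_erase _ _) (hT τ hτ) hfτ hf (by
      intro g _ hgc hgf
      exact mem_erase.2 ⟨hgf, mem_allF.2 hgc⟩)
    rwa [insert_erase hτ, insert_erase (mem_allF.2 hf)] at hb2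

theorem state_of_build (h : Build d R T X) (hc : T.card = (n - 1).choose d) : IsState n d T := by
  have h1 : ∀ σ ∈ T, σ.card = d + 1 := fun σ hσ => (h.mem σ hσ).1
  exact ⟨⟨h1, hc, (indep_of_collapsible h.collapsible h1 : _)⟩, h.collapsible⟩

/-! ### The exchange moves -/

theorem ExchangeStep.symm {T T' : Finset (Finset (Fin n))} (h : ExchangeStep n d T T') :
    ExchangeStep n d T' T := by
  obtain ⟨h1, h2, σ, τ, hσ, hσT, hτT, rfl⟩ := h
  have hne : τ ≠ σ := fun h => hσT (h ▸ hτT)
  refine ⟨h2, h1, τ, σ, h1.1.1 τ hτT, ?_, mem_insert_self _ _, ?_⟩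
  · rw [mem_insert, not_or]
    exact ⟨hne, notMem_erase _ _⟩
  · rw [erase_insert (fun h => hσT (mem_of_mem_erase h)), insert_erase hτT]

/-- Replace the `d`-face used for `f` by `σ`. -/
theorem move {E : Finset (Finset (Fin n))} (h : Build d R T E)
    (hc : T.card = (n - 1).choose d) {f σ : Finset (Fin n)}
    (hfE : f ∈ E) (hfR : f ∉ R) (hσ : σ.card = d + 1) (hfσ : f ⊆ σ) (hfc : f.card = d)
    (hother : ∀ g ⊆ σ, g.card = d → g ≠ f → g ∈ R) :
    ∃ τ ∈ T, f ⊆ τ ∧ Build d (insert f R) (T.erase τ) E ∧
      Build d R (insert σ (T.erase τ)) E ∧ (insert σ (T.erase τ)).card = (n - 1).choose d ∧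
      Relation.ReflTransGen (ExchangeStep n d) T (insert σ (T.erase τ)) := by
  obtain ⟨τ, hτ, hfτ, hb⟩ := h.extract hfE hfR
  have hb' := hb.prepend hfR hσ hfσ hfc hother
  have hσn : σ ∉ T.erase τ := by
    intro hσT
    obtain ⟨g, hg, hgc, hgR⟩ := hb.exists_new.2 σ hσT
    apply hgR
    by_cases hgf : g = f
    · rw [hgf]; exact mem_insert_self _ _
    · exact mem_insert_of_mem (hother g hg hgc hgf)
  have hc' : (insert σ (T.erase τ)).card = (n - 1).choose d := by
    rw [card_insert_of_notMem hσn, card_erase_of_mem hτ, hc]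
    have : 0 < T.card := card_pos.2 ⟨τ, hτ⟩
    omega
  refine ⟨τ, hτ, hfτ, hb, hb', hc', ?_⟩
  by_cases hσT : σ ∈ T
  · have hστ : σ = τ := by
      by_contra hne
      exact hσn (mem_erase.2 ⟨hne, hσT⟩)
    rw [hστ, insert_erase hτ]
  · exact Relation.ReflTransGen.single
      ⟨state_of_build h hc, state_of_build hb' hc', σ, τ, hσ, hσT, hτ, rfl⟩

/-! ### The star -/

/-- All `(d+1)`-subsets containing `z`. -/
def star (z : Fin n) (d : ℕ) : Finset (Finset (Fin n)) :=
  ((univ.erase z).powersetCard d).image (insert z)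

theorem mem_star {z : Fin n} {σ : Finset (Fin n)} : σ ∈ star z d ↔ z ∈ σ ∧ σ.card = d + 1 := by
  unfold star
  rw [mem_image]
  constructor
  · rintro ⟨ρ, hρ, rfl⟩
    rw [mem_powersetCard] at hρ
    have hz : z ∉ ρ := fun h => (mem_erase.1 (hρ.1 h)).1 rfl
    exact ⟨mem_insert_self _ _, by rw [card_insert_of_notMem hz, hρ.2]⟩
  · rintro ⟨hz, hc⟩
    refine ⟨σ.erase z, ?_, insert_erase hz⟩
    rw [mem_powersetCard]
    refine ⟨fun x hx => mem_erase.2 ⟨(mem_erase.1 hx).1, mem_univ _⟩, ?_⟩
    rw [card_erase_of_mem hz, hc]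
    omega

theorem card_star (z : Fin n) : (star z d).card = (n - 1).choose d := by
  unfold star
  rw [card_image_of_injOn, card_powersetCard, card_erase_of_mem (mem_univ _), card_univ,
    Fintype.card_fin]
  intro a ha b hb hab
  rw [mem_coe, mem_powersetCard] at ha hb
  have hza : z ∉ a := fun h => (mem_erase.1 (ha.1 h)).1 rfl
  have hzb : z ∉ b := fun h => (mem_erase.1 (hb.1 h)).1 rfl
  rw [← erase_insert hza, ← erase_insert hzb, hab]

/-- Over the star of dimension `d - 1` everything is connected to the star of dimension `d`. -/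
theorem to_star (z : Fin n) (e : ℕ) : ∀ (k : ℕ) (T : Finset (Finset (Fin n))),
    Build (e + 1) (star z e) T (allF n (e + 1)) → T.card = (n - 1).choose (e + 1) →
    (star z (e + 1) \ T).card = k →
    Relation.ReflTransGen (ExchangeStep n (e + 1)) T (star z (e + 1)) := by
  intro k
  induction k with
  | zero =>
    intro T hb hc hk
    rw [card_eq_zero, sdiff_eq_empty_iff_subset] at hk
    have : star z (e + 1) = T := eq_of_subset_of_card_le hk (by rw [hc, card_star])
    rw [this]
  | succ k ih =>
    intro T hb hc hk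
    obtain ⟨σ, hσ⟩ : (star z (e + 1) \ T).Nonempty := by
      rw [← card_pos]; omega
    rw [mem_sdiff, mem_star] at hσ
    obtain ⟨⟨hzσ, hσc⟩, hσT⟩ := hσ
    have hfc : (σ.erase z).card = e + 1 := by
      rw [card_erase_of_mem hzσ, hσc]; omega
    have hfR : σ.erase z ∉ star z e := by
      rw [mem_star]
      exact fun h => (notMem_erase z σ) h.1
    obtain ⟨τ, hτ, hfτ, -, hb', hc', hpath⟩ := move hb hc (mem_allF.2 hfc) hfR hσc
      (erase_subset z σ) hfc (by
        intro g hg hgc hgf
        rw [mem_star]
        refine ⟨?_, hgc⟩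
        by_contra hzg
        apply hgf
        apply eq_of_subset_of_card_le
        · intro x hx
          exact mem_erase.2 ⟨fun h => hzg (h ▸ hx), hg hx⟩
        · rw [hfc, hgc])
    have hzτ : z ∉ τ := by
      intro hz
      apply hσT
      have : σ = τ := by
        apply eq_of_subset_of_card_le
        · intro x hx
          by_cases hxz : x = z
          · rw [hxz]; exact hz
          · exact hfτ (mem_erase.2 ⟨hxz, hx⟩)
        · rw [(hb.mem τ hτ).1, hσc]
      rw [this]; exact hτ
    refine hpath.trans (ih _ hb' hc' ?_)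
    have : star z (e + 1) \ insert σ (T.erase τ) = (star z (e + 1) \ T).erase σ := by
      ext x
      rw [mem_sdiff, mem_insert, mem_erase, mem_erase, mem_sdiff]
      constructor
      · rintro ⟨h1, h2⟩
        push Not at h2
        refine ⟨h2.1, h1, fun hxT => ?_⟩
        exact h2.2 (fun hxτ => hzτ (hxτ ▸ (mem_star.1 h1).1)) hxT
      · rintro ⟨h1, h2, h3⟩
        refine ⟨h2, ?_⟩
        push Not
        exact ⟨h1, fun _ => h3⟩
    rw [this, card_erase_of_mem (mem_sdiff.2 ⟨mem_star.2 ⟨hzσ, hσc⟩, hσT⟩), hk]
    omega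

/-! ### Dimension two: changing the spanning tree -/

/-- Adding edges by triangles does not join different sides. -/
theorem same_side (N : Fin n → Prop) (h : Build 2 R T X)
    (hR : ∀ a b : Fin n, a ≠ b → {a, b} ∈ R → (N a ↔ N b)) :
    ∀ a b : Fin n, a ≠ b → {a, b} ∈ X → (N a ↔ N b) := by
  induction h with
  | base => exact hR
  | add T X f τ h hf hτ hfτ hfc hother ih =>
    intro a b hab habX
    rcases mem_insert.1 habX with h' | h'
    · -- the new edge
      subst h'
      obtain ⟨c, hcτ, hc⟩ : ∃ c ∈ τ, c ∉ ({a, b} : Finset (Fin n)) := by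
        by_contra hcon
        push Not at hcon
        have := card_le_card (fun x hx => hcon x hx : τ ⊆ {a, b})
        omega
      rw [mem_insert, mem_singleton, not_or] at hc
      have haτ : a ∈ τ := hfτ (by simp)
      have hbτ : b ∈ τ := hfτ (by simp)
      have e1 : ({a, c} : Finset (Fin n)) ∈ X := by
        apply hother
        · intro x hx
          rcases mem_insert.1 hx with h | h
          · rw [h]; exact haτ
          · rw [mem_singleton.1 h]; exact hcτ
        · exact card_pair (Ne.symm hc.1)
        · intro h'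
          have : c ∈ ({a, b} : Finset (Fin n)) := by rw [← h']; simp
          rw [mem_insert, mem_singleton] at this
          exact this.elim hc.1 hc.2
      have e2 : ({b, c} : Finset (Fin n)) ∈ X := by
        apply hother
        · intro x hx
          rcases mem_insert.1 hx with h | h
          · rw [h]; exact hbτ
          · rw [mem_singleton.1 h]; exact hcτ
        · exact card_pair (Ne.symm hc.2)
        · intro h'
          have : c ∈ ({a, b} : Finset (Fin n)) := by rw [← h']; simp
          rw [mem_insert, mem_singleton] at this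
          exact this.elim hc.1 hc.2
      exact (ih a c (Ne.symm hc.1) e1).trans (ih b c (Ne.symm hc.2) e2).symm
    · exact ih a b hab h'

theorem exists_path (z : Fin n) (h : Build 2 R T (allF n 2)) (hcard : R.card = n - 1)
    (hk : ∃ e ∈ R, z ∉ e) :
    ∃ w u : Fin n, w ≠ z ∧ u ≠ z ∧ u ≠ w ∧ ({z, w} : Finset (Fin n)) ∈ R ∧
      ({u, w} : Finset (Fin n)) ∈ R ∧ ({z, u} : Finset (Fin n)) ∉ R := by
  by_contra hcon
  push Not at hcon
  have key := same_side (fun x => x = z ∨ ({z, x} : Finset (Fin n)) ∈ R) h (by
    intro a b hab habR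
    have one : ∀ a b : Fin n, a ≠ b → ({a, b} : Finset (Fin n)) ∈ R →
        (a = z ∨ ({z, a} : Finset (Fin n)) ∈ R) → (b = z ∨ ({z, b} : Finset (Fin n)) ∈ R) := by
      intro a b hab habR ha
      by_cases hb : b = z
      · exact Or.inl hb
      · right
        by_cases haz : a = z
        · subst haz; exact habR
        · exact hcon a b haz hb (Ne.symm hab) (ha.resolve_left haz) (by rwa [pair_comm])
    constructor
    · exact one a b hab habR
    · exact one b a (Ne.symm hab) (by rwa [pair_comm]))
  have hsub : star z 1 ⊆ R := by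
    intro e he
    rw [mem_star] at he
    obtain ⟨x, hx⟩ : ∃ x, e.erase z = {x} := by
      rw [← card_eq_one, card_erase_of_mem he.1, he.2]
    have hxz : x ≠ z := by
      rintro rfl
      have : x ∈ e.erase x := by rw [hx]; simp
      exact (notMem_erase x e) this
    have hee : e = {z, x} := by
      rw [← insert_erase he.1, hx]
    have h1 := (key z x (Ne.symm hxz) (by rw [mem_allF, card_pair (Ne.symm hxz)])).1 (Or.inl rfl)
    rw [hee]
    exact h1.resolve_left hxz
  have heq : star z 1 = R := eq_of_subset_of_card_le hsub (by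
    rw [card_star, Nat.choose_one_right, hcard])
  obtain ⟨e, he, hze⟩ := hk
  rw [← heq, mem_star] at he
  exact hze he.1

theorem edges_of_triangle {z u w : Fin n} (hzu : z ≠ u) (hzw : z ≠ w) (huw : u ≠ w)
    {g : Finset (Fin n)} (hg : g ⊆ {z, u, w}) (hgc : g.card = 2) :
    g = {z, u} ∨ g = {z, w} ∨ g = {u, w} := by
  obtain ⟨a, b, hab, rfl⟩ := card_eq_two.1 hgc
  have ha := hg (mem_insert_self a _)
  have hb := hg (mem_insert_of_mem (mem_singleton_self b))
  rw [mem_insert, mem_insert, mem_singleton] at ha hb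
  rcases ha with rfl | rfl | rfl <;> rcases hb with rfl | rfl | rfl
  · exact absurd rfl hab
  · exact Or.inl rfl
  · exact Or.inr (Or.inl rfl)
  · exact Or.inl (pair_comm _ _)
  · exact absurd rfl hab
  · exact Or.inr (Or.inr rfl)
  · exact Or.inr (Or.inl (pair_comm _ _))
  · exact Or.inr (Or.inr (pair_comm _ _))
  · exact absurd rfl hab

theorem to_star_base (z : Fin n) (hn : 1 ≤ n) : ∀ (k : ℕ) (R T : Finset (Finset (Fin n))),
    Build 2 R T (allF n 2) → T.card = (n - 1).choose 2 → (R.filter (fun e => z ∉ e)).card = k →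
    Relation.ReflTransGen (ExchangeStep n 2) T (star z 2) := by
  intro k
  induction k with
  | zero =>
    intro R T hb hc hk
    have hRcard : R.card = n - 1 := by
      have h1 := hb.card
      rw [hc, allF, card_powersetCard, card_univ, Fintype.card_fin] at h1
      obtain ⟨m, rfl⟩ : ∃ m, n = m + 1 := ⟨n - 1, by omega⟩
      have h2 : (m + 1).choose 2 = m + m.choose 2 := by
        have := Nat.choose_succ_succ' m 1
        rw [Nat.choose_one_right] at this
        exact this
      have h3 : m + 1 - 1 = m := rfl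
      rw [h2, h3] at h1
      omega
    have hsub : R ⊆ star z 1 := by
      intro e he
      have h1 : e ∉ R.filter (fun e => z ∉ e) := by
        rw [card_eq_zero] at hk
        rw [hk]; exact notMem_empty _
      rw [mem_filter] at h1
      push Not at h1
      rw [mem_star]
      exact ⟨h1 he, mem_allF.1 (hb.exists_new.1 he)⟩
    have heq : R = star z 1 := eq_of_subset_of_card_le hsub (by
      rw [card_star, Nat.choose_one_right, hRcard])
    subst heq
    exact to_star z 1 _ T hb hc rfl
  | succ k ih =>
    intro R T hb hc hk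
    have hRcard : R.card = n - 1 := by
      have h1 := hb.card
      rw [hc, allF, card_powersetCard, card_univ, Fintype.card_fin] at h1
      obtain ⟨m, rfl⟩ : ∃ m, n = m + 1 := ⟨n - 1, by omega⟩
      have h2 : (m + 1).choose 2 = m + m.choose 2 := by
        have := Nat.choose_succ_succ' m 1
        rw [Nat.choose_one_right] at this
        exact this
      have h3 : m + 1 - 1 = m := rfl
      rw [h2, h3] at h1
      omega
    have hex : ∃ e ∈ R, z ∉ e := by
      have h1 : (R.filter (fun e => z ∉ e)).Nonempty := by rw [← card_pos]; omega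
      obtain ⟨e, he⟩ := h1
      rw [mem_filter] at he
      exact ⟨e, he.1, he.2⟩
    obtain ⟨w, u, hwz, huz, huw, h1, h2, h3⟩ := exists_path z hb hRcard hex
    have hzu : z ≠ u := Ne.symm huz
    have hzw : z ≠ w := Ne.symm hwz
    have n1 : ({z, u} : Finset (Fin n)) ≠ {u, w} := by
      intro h'
      have : z ∈ ({u, w} : Finset (Fin n)) := by rw [← h']; simp
      rw [mem_insert, mem_singleton] at this
      exact this.elim hzu hzw
    have n2 : ({z, w} : Finset (Fin n)) ≠ {u, w} := by
      intro h'
      have : z ∈ ({u, w} : Finset (Fin n)) := by rw [← h']; simp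
      rw [mem_insert, mem_singleton] at this
      exact this.elim hzu hzw
    have hσc : ({z, u, w} : Finset (Fin n)).card = 2 + 1 := by
      rw [card_insert_of_notMem, card_pair huw]
      rw [mem_insert, mem_singleton, not_or]
      exact ⟨hzu, hzw⟩
    obtain ⟨τ, hτ, hfτ, hb0, hb', hc', hpath⟩ := move hb hc
      (f := {z, u}) (σ := {z, u, w}) (mem_allF.2 (card_pair hzu)) h3 hσc
      (by
        intro x hx
        rw [mem_insert, mem_singleton] at hx
        rw [mem_insert, mem_insert]
        exact hx.elim Or.inl (fun h => Or.inr (Or.inl h)))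
      (card_pair hzu)
      (by
        intro g hg hgc hgf
        rcases edges_of_triangle hzu hzw huw hg hgc with h | h | h
        · exact absurd h hgf
        · rw [h]; exact h1
        · rw [h]; exact h2)
    set R' := (insert {z, u} R).erase {u, w} with hR'
    have hins : insert {u, w} R' = insert {z, u} R := by
      rw [hR', insert_erase (mem_insert_of_mem h2)]
    rw [← hins] at hb0
    have hb2 : Build 2 R' (insert {z, u, w} (T.erase τ)) (allF n 2) := by
      refine hb0.prepend (notMem_erase _ _) hσc ?_ (card_pair huw) ?_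
      · intro x hx
        exact mem_insert_of_mem hx
      · intro g hg hgc hgf
        rcases edges_of_triangle hzu hzw huw hg hgc with h | h | h
        · rw [h, hR']
          exact mem_erase.2 ⟨n1, mem_insert_self _ _⟩
        · rw [h, hR']
          exact mem_erase.2 ⟨n2, mem_insert_of_mem h1⟩
        · exact absurd h hgf
    refine hpath.trans (ih R' _ hb2 hc' ?_)
    have hfil : R'.filter (fun e => z ∉ e) = (R.filter (fun e => z ∉ e)).erase {u, w} := by
      ext e
      rw [mem_filter, hR', mem_erase, mem_insert, mem_erase, mem_filter]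
      constructor
      · rintro ⟨⟨h4, h5⟩, h6⟩
        refine ⟨h4, h5.resolve_left ?_, h6⟩
        rintro rfl
        exact h6 (by simp)
      · rintro ⟨h4, h5, h6⟩
        exact ⟨⟨h4, Or.inr h5⟩, h6⟩
    rw [hfil, card_erase_of_mem, hk]
    · omega
    · rw [mem_filter]
      refine ⟨h2, ?_⟩
      rw [mem_insert, mem_singleton, not_or]
      exact ⟨hzu, hzw⟩

/-- The restricted base-exchange chain is connected for `d = 2` and every `n ≥ 3`. -/
theorem result (n : ℕ) (hn : 3 ≤ n) (T T' : Finset (Finset (Fin n)))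
    (hT : IsState n 2 T) (hT' : IsState n 2 T') :
    Relation.ReflTransGen (ExchangeStep n 2) T T' := by
  let z : Fin n := ⟨0, by omega⟩
  have key : ∀ T, IsState n 2 T → Relation.ReflTransGen (ExchangeStep n 2) T (star z 2) := by
    intro T hT
    obtain ⟨R, hR⟩ := exists_build hT.2 hT.1.1
    exact to_star_base z (by omega) _ R T hR hT.1.2.1 rfl
  have hsymm : ∀ A B : Finset (Finset (Fin n)), Relation.ReflTransGen (ExchangeStep n 2) A B →
      Relation.ReflTransGen (ExchangeStep n 2) B A := by
    intro A B h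
    induction h with
    | refl => exact Relation.ReflTransGen.refl
    | tail _ h2 ih => exact Relation.ReflTransGen.head h2.symm ih
  exact (key T hT).trans (hsymm _ _ (key T' hT'))

end Pool.Agent.Results.MP_797bdc_co.DimTwoConnected
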